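import Pool.Agent.Helper15.AF.Goals3
import Pool.Agent.Helper79.JT.PJ4
import Pool.Agent.Helper34.JT.PJ5
import Pool.Agent.Helper3.JT.TLJ
import Pool.Agent.Helper8.DT.NPRCPW

/-!
# Project AF (MP_34c247_lc): packet PM4, the error of the parts
-/

set_option autoImplicit false

namespace Pool.Agent.Helper46.AF

open Pool.Agent.Helper78.DT Pool.Agent.Helper78.JT Pool.Agent.Helper15.AF

theorem pm4 : Pm4Stmt := by
  intro c a e β ha hab
  have hT : TljStmt := Pool.Agent.Helper3.JT.tlj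
  have h4 : Pj4Stmt := Pool.Agent.Helper79.JT.pj4 hT
  obtain ⟨L5, hL5⟩ := Pool.Agent.Helper34.JT.pj5 hT h4 (cM c) a e β ha hab
  obtain ⟨L4, hL4⟩ := h4 (cM c) a e β
  obtain ⟨h1, h2, L1, h3⟩ := hT a e
  obtain ⟨L2, hL2⟩ := h2 (7 + bb a e * (c + 2) + 1)
  refine ⟨64 + L1 + L2 + L4 + L5, fun L hL r hr => ?_⟩
  have hL64 : 64 ≤ L := by omega
  have hL1 : 1 ≤ L := by omega
  have hLr : (64 : ℝ) ≤ L := by exact_mod_cast hL64
  have hLp : (0 : ℝ) < L := by linarith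
  have hL1r : (1 : ℝ) ≤ L := by linarith
  obtain ⟨hb1, hb2, hb3, hb4⟩ := h1 L hL1
  obtain ⟨hd1, hd2⟩ := h3 L (by omega)
  have ht := hL2 L (by omega)
  obtain ⟨hK0, hK, hKδ, -, -, -⟩ := hL4 L (by omega)
  have hA6 := hL5 L (by omega) r hr
  set C := cM c with hC
  have hCc : C = 2 * c + 10 := rfl
  set t := tj a e L with htdef
  set b := bb a e with hbdef
  set D := Dj a e L with hD
  have hD1 : 1 ≤ D := Nat.one_le_two_pow
  have hKr : (Kj C a β e L : ℝ) ≤ (L : ℝ) ^ 2 := by exact_mod_cast hK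
  have hKr0 : (0 : ℝ) ≤ Kj C a β e L := Nat.cast_nonneg _
  have hDr : (D : ℝ) ≤ L := by exact_mod_cast hd2
  have hD0 : (0 : ℝ) ≤ D := Nat.cast_nonneg _
  have hP : L ^ (C + 8) ≤ Pj C L := (Pool.Agent.Helper8.DT.npr (L ^ (C + 8)) (by positivity)).2.1
  have hPr : (L : ℝ) ^ (C + 8) ≤ Pj C L := by exact_mod_cast hP
  have hP0 : (0 : ℝ) < (L : ℝ) ^ (C + 8) := by positivity
  have hPp : (0 : ℝ) < Pj C L := lt_of_lt_of_le hP0 hPr
  have hLc : (0 : ℝ) < (L : ℝ) ^ c := by positivity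
  -- `1 / (64 L ^ C)` is small
  have hCL : 2 / (64 * (L : ℝ) ^ C) ≤ 1 / (64 * (L : ℝ) ^ c) := by
    rw [div_le_div_iff₀ (by positivity) (by positivity), hCc]
    have h5 : (L : ℝ) ^ (2 * c + 10) = (L : ℝ) ^ c * (L : ℝ) ^ (c + 10) := by
      rw [← pow_add]; congr 1; omega
    have h6 : (2 : ℝ) ≤ (L : ℝ) ^ (c + 10) := by
      calc (2 : ℝ) ≤ L := by linarith
        _ = (L : ℝ) ^ 1 := (pow_one _).symm
        _ ≤ (L : ℝ) ^ (c + 10) := pow_le_pow_right₀ hL1r (by omega)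
    rw [h5]
    nlinarith
  have hCL1 : 1 / (64 * (L : ℝ) ^ C) ≤ 1 / (64 * (L : ℝ) ^ c) := by
    refine le_trans ?_ hCL
    apply div_le_div_of_nonneg_right (by norm_num)
    positivity
  -- first summand
  have hA1 : (Kj C a β e L : ℝ) * (2 * (((e : ℝ) + 1) * δj C L)) ≤ 1 / (64 * (L : ℝ) ^ c) := by
    calc (Kj C a β e L : ℝ) * (2 * (((e : ℝ) + 1) * δj C L))
        = 2 * ((Kj C a β e L : ℝ) * (((e : ℝ) + 1) * δj C L)) := by ring
      _ ≤ 2 * (1 / (64 * (L : ℝ) ^ C)) := by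
          apply mul_le_mul_of_nonneg_left hKδ (by norm_num)
      _ = 2 / (64 * (L : ℝ) ^ C) := by ring
      _ ≤ 1 / (64 * (L : ℝ) ^ c) := hCL
  -- second summand
  have hLb : L ≤ 2 ^ (b * (t + 1)) := hb2.le
  have hR : 2 ^ (Uj a e L ^ (e + 1)) ≤ Rj a e L e :=
    (Pool.Agent.Helper8.DT.npr (2 ^ (Uj a e L ^ (e + 1))) (by positivity)).2.1
  have hm : mj a e L = D * 2 ^ t := rfl
  have hexp : 7 + b * (t + 1) * (c + 2) + D * 2 ^ t ≤ D * 2 ^ (2 * t) := by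
    have h6 : t + 1 ≤ 2 ^ t := Nat.lt_two_pow_self
    have h5 : 7 + b * (t + 1) * (c + 2) + 2 ^ t ≤ 2 ^ (2 * t) := by
      calc 7 + b * (t + 1) * (c + 2) + 2 ^ t
          ≤ (7 + b * (c + 2)) * (t + 1) + 2 ^ t := by nlinarith
        _ ≤ (7 + b * (c + 2)) * 2 ^ t + 2 ^ t :=
            Nat.add_le_add_right (Nat.mul_le_mul_left _ h6) _
        _ = (7 + b * (c + 2) + 1) * 2 ^ t := by ring
        _ ≤ t * 2 ^ t := Nat.mul_le_mul_right _ ht
        _ ≤ 2 ^ t * 2 ^ t := Nat.mul_le_mul_right _ (by omega)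
        _ = 2 ^ (2 * t) := by rw [two_mul, pow_add]
    calc 7 + b * (t + 1) * (c + 2) + D * 2 ^ t
        ≤ D * (7 + b * (t + 1) * (c + 2)) + D * 2 ^ t :=
          Nat.add_le_add_right (Nat.le_mul_of_pos_left _ hD1) _
      _ = D * (7 + b * (t + 1) * (c + 2) + 2 ^ t) := by ring
      _ ≤ D * 2 ^ (2 * t) := Nat.mul_le_mul_left _ h5
  have hmain : 128 * L ^ (c + 2) * 2 ^ (mj a e L) ≤ Rj a e L e := by
    calc 128 * L ^ (c + 2) * 2 ^ (mj a e L)
        ≤ 2 ^ 7 * (2 ^ (b * (t + 1))) ^ (c + 2) * 2 ^ (D * 2 ^ t) := by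
          rw [hm]
          refine Nat.mul_le_mul_right _ ?_
          exact Nat.mul_le_mul (by norm_num) (Nat.pow_le_pow_left hLb _)
      _ = 2 ^ (7 + b * (t + 1) * (c + 2) + D * 2 ^ t) := by
          rw [← pow_mul, pow_add, pow_add]
      _ ≤ 2 ^ (D * 2 ^ (2 * t)) := Nat.pow_le_pow_right (by norm_num) hexp
      _ ≤ 2 ^ (Uj a e L ^ (e + 1)) := Nat.pow_le_pow_right (by norm_num) hd1
      _ ≤ Rj a e L e := hR
  have hmr : 128 * (L : ℝ) ^ (c + 2) * 2 ^ (mj a e L) ≤ Rj a e L e := by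
    exact_mod_cast hmain
  have hRp : (0 : ℝ) < Rj a e L e := lt_of_lt_of_le (by positivity) hmr
  have hA2 : (Kj C a β e L : ℝ) * (2 * (2 ^ (mj a e L) / Rj a e L e)) ≤
      1 / (64 * (L : ℝ) ^ c) := by
    calc (Kj C a β e L : ℝ) * (2 * (2 ^ (mj a e L) / Rj a e L e))
        ≤ (L : ℝ) ^ 2 * (2 * (2 ^ (mj a e L) / Rj a e L e)) :=
          mul_le_mul_of_nonneg_right hKr (by positivity)
      _ = ((L : ℝ) ^ 2 * 2 * 2 ^ (mj a e L)) / Rj a e L e := by ring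
      _ ≤ 1 / (64 * (L : ℝ) ^ c) := by
          rw [div_le_div_iff₀ hRp (by positivity)]
          calc (L : ℝ) ^ 2 * 2 * 2 ^ (mj a e L) * (64 * (L : ℝ) ^ c)
              = 128 * (L : ℝ) ^ (c + 2) * 2 ^ (mj a e L) := by
                rw [pow_add]
                ring
            _ ≤ 1 * Rj a e L e := by rw [one_mul]; exact hmr
  -- third summand
  have hA3 : (Kj C a β e L : ℝ) * (1 / (Jj c L : ℕ)) ≤ 1 / (64 * (L : ℝ) ^ c) := by
    unfold Jj
    push_cast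
    calc (Kj C a β e L : ℝ) * (1 / (L : ℝ) ^ (c + 3))
        ≤ (L : ℝ) ^ 2 * (1 / (L : ℝ) ^ (c + 3)) := mul_le_mul_of_nonneg_right hKr (by positivity)
      _ = 1 / (L * (L : ℝ) ^ c) := by
          rw [pow_add]
          field_simp
      _ ≤ 1 / (64 * (L : ℝ) ^ c) := by
          refine one_div_le_one_div_of_le (by positivity) ?_
          exact mul_le_mul_of_nonneg_right hLr (by positivity)
  -- fourth summand
  have hA4 : (Kj C a β e L : ℝ) * ((D : ℝ) ^ 2 * L / Pj C L) ≤ 1 / (64 * (L : ℝ) ^ c) := by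
    calc (Kj C a β e L : ℝ) * ((D : ℝ) ^ 2 * L / Pj C L)
        ≤ (L : ℝ) ^ 2 * ((L : ℝ) ^ 2 * L / (L : ℝ) ^ (C + 8)) := by
          refine mul_le_mul hKr ?_ (by positivity) (by positivity)
          refine div_le_div₀ (by positivity) ?_ hP0 hPr
          exact mul_le_mul_of_nonneg_right (pow_le_pow_left₀ hD0 hDr 2) hLp.le
      _ = 1 / ((L : ℝ) ^ (c + 13) * (L : ℝ) ^ c) := by
          have h5 : (L : ℝ) ^ (C + 8) = (L : ℝ) ^ 5 * ((L : ℝ) ^ (c + 13) * (L : ℝ) ^ c) := by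
            rw [← pow_add, ← pow_add]
            congr 1
            omega
          rw [h5]
          have h6 : (L : ℝ) ≠ 0 := hLp.ne'
          field_simp
      _ ≤ 1 / (64 * (L : ℝ) ^ c) := by
          refine one_div_le_one_div_of_le (by positivity) ?_
          refine mul_le_mul_of_nonneg_right ?_ (by positivity)
          calc (64 : ℝ) ≤ L := hLr
            _ = (L : ℝ) ^ 1 := (pow_one _).symm
            _ ≤ (L : ℝ) ^ (c + 13) := pow_le_pow_right₀ hL1r (by omega)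
  -- fifth summand
  have hA5 : (Kj C a β e L : ℝ) * ((D : ℝ) * μj c L) ≤ 1 / (64 * (L : ℝ) ^ c) := by
    unfold μj
    calc (Kj C a β e L : ℝ) * ((D : ℝ) * (1 / (L : ℝ) ^ (c + 4)))
        ≤ (L : ℝ) ^ 2 * (L * (1 / (L : ℝ) ^ (c + 4))) := by
          refine mul_le_mul hKr ?_ (by positivity) (by positivity)
          exact mul_le_mul_of_nonneg_right hDr (by positivity)
      _ = 1 / (L * (L : ℝ) ^ c) := by
          rw [pow_add]
          field_simp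
      _ ≤ 1 / (64 * (L : ℝ) ^ c) := by
          refine one_div_le_one_div_of_le (by positivity) ?_
          exact mul_le_mul_of_nonneg_right hLr (by positivity)
  have hA6' : (Kj C a β e L : ℝ) * (r * ((sj a e L + 1) * (κj a e L ^ (1 - ηp a) *
      (2 / ηp a) ^ t))) ≤ 1 / (64 * (L : ℝ) ^ c) := le_trans hA6 hCL1
  unfold errP
  have hsum : (Kj C a β e L : ℝ) * (2 * (((e : ℝ) + 1) * δj C L + 2 ^ mj a e L / Rj a e L e) +
      1 / (Jj c L : ℕ) + ((D : ℝ) ^ 2 * L / Pj C L + D * μj c L) +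
      r * ((sj a e L + 1) * (κj a e L ^ (1 - ηp a) * (2 / ηp a) ^ t)))
      = (Kj C a β e L : ℝ) * (2 * (((e : ℝ) + 1) * δj C L))
        + (Kj C a β e L : ℝ) * (2 * (2 ^ (mj a e L) / Rj a e L e))
        + (Kj C a β e L : ℝ) * (1 / (Jj c L : ℕ))
        + (Kj C a β e L : ℝ) * ((D : ℝ) ^ 2 * L / Pj C L)
        + (Kj C a β e L : ℝ) * ((D : ℝ) * μj c L)
        + (Kj C a β e L : ℝ) * (r * ((sj a e L + 1) * (κj a e L ^ (1 - ηp a) *
            (2 / ηp a) ^ t))) := by ring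
  have h6 : (6 : ℝ) / (64 * (L : ℝ) ^ c) = 6 * (1 / (64 * (L : ℝ) ^ c)) := by ring
  rw [h6]
  calc _ = _ := hsum
    _ ≤ 6 * (1 / (64 * (L : ℝ) ^ c)) := by linarith

end Pool.Agent.Helper46.AF
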