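import Pool.Agent.Helper26.AF.Goals

/-!
# Project AF, packet SWAP: orbits of a permutation times a transposition
-/

open Pool.Agent.Helper26.AF

namespace Pool.Agent.Helper46.AF

variable {D : Type}

/-- the setoid generated by `s` and `a ~ b` -/
def tt (s : Setoid D) (a b : D) : Setoid D where
  r x y := s x y ∨ (s x a ∧ s b y) ∨ (s x b ∧ s a y)
  iseqv := by
    refine ⟨fun x => Or.inl (s.refl x), ?_, ?_⟩
    · rintro x y (h | ⟨h, h'⟩ | ⟨h, h'⟩)
      · exact Or.inl (s.symm h)
      · exact Or.inr (Or.inr ⟨s.symm h', s.symm h⟩)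
      · exact Or.inr (Or.inl ⟨s.symm h', s.symm h⟩)
    · rintro x y z (h | ⟨h, h'⟩ | ⟨h, h'⟩) (k | ⟨k, k'⟩ | ⟨k, k'⟩)
      · exact Or.inl (s.trans h k)
      · exact Or.inr (Or.inl ⟨s.trans h k, k'⟩)
      · exact Or.inr (Or.inr ⟨s.trans h k, k'⟩)
      · exact Or.inr (Or.inl ⟨h, s.trans h' k⟩)
      · exact Or.inr (Or.inl ⟨h, k'⟩)
      · exact Or.inl (s.trans h k')
      · exact Or.inr (Or.inr ⟨h, s.trans h' k⟩)
      · exact Or.inl (s.trans h k')
      · exact Or.inr (Or.inr ⟨h, k'⟩)

theorem tt_r (s : Setoid D) (a b x y : D) :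
    tt s a b x y ↔ s x y ∨ (s x a ∧ s b y) ∨ (s x b ∧ s a y) := Iff.rfl

theorem card_tt_same (s : Setoid D) (a b : D) (h : s a b) :
    Nat.card (Quotient (tt s a b)) = Nat.card (Quotient s) := by
  have : tt s a b = s := by
    ext x y
    rw [tt_r]
    refine ⟨?_, Or.inl⟩
    rintro (k | ⟨k, k'⟩ | ⟨k, k'⟩)
    · exact k
    · exact s.trans k (s.trans h k')
    · exact s.trans k (s.trans (s.symm h) k')
  rw [this]

theorem card_tt_ne [Finite D] (s : Setoid D) (a b : D) (h : ¬ s a b) :
    Nat.card (Quotient (tt s a b)) + 1 = Nat.card (Quotient s) := by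
  classical
  let q0 : Quotient s := Quotient.mk s b
  let f : Quotient s → Quotient (tt s a b) :=
    Quotient.lift (fun x => Quotient.mk (tt s a b) x) (fun x y hxy => Quotient.sound (Or.inl hxy))
  have hf : Function.Bijective (fun q : {q : Quotient s // q ≠ q0} => f q.1) := by
    constructor
    · rintro ⟨q, hq⟩ ⟨q', hq'⟩ hqq
      induction q using Quotient.inductionOn with
      | h x =>
      induction q' using Quotient.inductionOn with
      | h y =>
      have hxy : tt s a b x y := Quotient.exact hqq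
      apply Subtype.ext
      rcases (tt_r _ _ _ _ _).1 hxy with k | ⟨k, k'⟩ | ⟨k, k'⟩
      · exact Quotient.sound k
      · exact absurd (Quotient.sound (s.symm k')) hq'
      · exact absurd (Quotient.sound k) hq
    · intro q
      induction q using Quotient.inductionOn with
      | h x =>
      by_cases hx : s x b
      · refine ⟨⟨Quotient.mk s a, fun h' => h (Quotient.exact h')⟩, ?_⟩
        exact Quotient.sound (Or.inr (Or.inl ⟨s.refl a, s.symm hx⟩))
      · exact ⟨⟨Quotient.mk s x, fun h' => hx (Quotient.exact h')⟩, rfl⟩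
  rw [← Nat.card_congr (Equiv.ofBijective _ hf), ← Nat.card_congr (Equiv.optionSubtypeNe q0),
    Finite.card_option]

/-- all powers of `ρ` stay in a class -/
theorem of_step (ρ : Equiv.Perm D) (t : Setoid D) (h : ∀ x, t x (ρ x)) {x y : D}
    (hxy : ρ.SameCycle x y) : t x y := by
  obtain ⟨n, rfl⟩ := hxy
  induction n using Int.induction_on with
  | zero => exact t.refl _
  | succ n ih =>
    have : (ρ ^ ((n : ℤ) + 1)) x = ρ ((ρ ^ (n : ℤ)) x) := by
      rw [add_comm, zpow_add, zpow_one, Equiv.Perm.mul_apply]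
    rw [this]
    exact t.trans ih (h _)
  | pred n ih =>
    have : (ρ ^ (-(n : ℤ))) x = ρ ((ρ ^ (-(n : ℤ) - 1)) x) := by
      rw [← Equiv.Perm.mul_apply, ← zpow_one_add]
      congr 2
      ring
    rw [this] at ih
    exact t.trans ih (t.symm (h _))

theorem le_tt [DecidableEq D] (π : Equiv.Perm D) (a b : D) {x y : D}
    (h : tt (Equiv.Perm.SameCycle.setoid (π * Equiv.swap a b)) a b x y) :
    tt (Equiv.Perm.SameCycle.setoid π) a b x y := by
  obtain ⟨s, hs⟩ : ∃ s, s = Equiv.Perm.SameCycle.setoid π := ⟨_, rfl⟩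
  have hs' : ∀ x, s x (π x) := fun x => by
    rw [hs]
    exact (Equiv.Perm.sameCycle_apply_right.2 (Equiv.Perm.SameCycle.refl _ _) : π.SameCycle x (π x))
  rw [← hs]
  have hab : tt s a b a b := Or.inr (Or.inl ⟨s.refl a, s.refl b⟩)
  have hstep : ∀ z, tt s a b z ((π * Equiv.swap a b) z) := by
    intro z
    rw [Equiv.Perm.mul_apply]
    by_cases hza : z = a
    · subst hza
      rw [Equiv.swap_apply_left]
      exact Or.inr (Or.inl ⟨s.refl _, hs' b⟩)
    · by_cases hzb : z = b
      · subst hzb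
        rw [Equiv.swap_apply_right]
        exact Or.inr (Or.inr ⟨s.refl _, hs' a⟩)
      · rw [Equiv.swap_apply_of_ne_of_ne hza hzb]
        exact Or.inl (hs' z)
  have key : ∀ {x y}, (Equiv.Perm.SameCycle.setoid (π * Equiv.swap a b)) x y → tt s a b x y :=
    fun {x y} h => of_step _ _ hstep h
  rcases (tt_r _ _ _ _ _).1 h with k | ⟨k, k'⟩ | ⟨k, k'⟩
  · exact key k
  · exact (tt s a b).trans (key k) ((tt s a b).trans hab (key k'))
  · exact (tt s a b).trans (key k) ((tt s a b).trans ((tt s a b).symm hab) (key k'))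

theorem tt_eq [DecidableEq D] (π : Equiv.Perm D) (a b : D) :
    tt (Equiv.Perm.SameCycle.setoid (π * Equiv.swap a b)) a b =
      tt (Equiv.Perm.SameCycle.setoid π) a b := by
  ext x y
  refine ⟨le_tt π a b, fun h => le_tt (π * Equiv.swap a b) a b ?_⟩
  rwa [mul_assoc, Equiv.swap_mul_self, mul_one]

theorem goalSWAP (hORBS : StmtORBS) : StmtSWAP := by
  intro D _ _ π a b hab
  have hs1 := hORBS D π
  have hs2 := hORBS D (π * Equiv.swap a b)
  rw [Equiv.Perm.sign_mul, Equiv.Perm.sign_swap hab] at hs2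
  have hsgn : (-1 : ℤ) ^ (Fintype.card D + orb (π * Equiv.swap a b)) =
      -(-1) ^ (Fintype.card D + orb π) := by
    rw [← hs1, ← hs2]
    push_cast
    ring
  have hne : orb (π * Equiv.swap a b) ≠ orb π := by
    intro h
    rw [h] at hsgn
    have h1 : ((-1 : ℤ) ^ (Fintype.card D + orb π)) ≠ 0 := pow_ne_zero _ (by norm_num)
    omega
  have ht : Nat.card (Quotient (tt (Equiv.Perm.SameCycle.setoid (π * Equiv.swap a b)) a b)) =
      Nat.card (Quotient (tt (Equiv.Perm.SameCycle.setoid π) a b)) := by rw [tt_eq]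
  have hρ : orb (π * Equiv.swap a b) =
        Nat.card (Quotient (tt (Equiv.Perm.SameCycle.setoid π) a b)) ∨
      orb (π * Equiv.swap a b) =
        Nat.card (Quotient (tt (Equiv.Perm.SameCycle.setoid π) a b)) + 1 := by
    rw [← ht]
    by_cases h : (Equiv.Perm.SameCycle.setoid (π * Equiv.swap a b)) a b
    · left
      rw [card_tt_same _ _ _ h]
      rfl
    · right
      rw [card_tt_ne _ _ _ h]
      rfl
  constructor
  · intro h
    have h1 : Nat.card (Quotient (tt (Equiv.Perm.SameCycle.setoid π) a b)) = orb π :=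
      card_tt_same _ _ _ h
    rw [h1] at hρ
    omega
  · intro h
    have h1 : Nat.card (Quotient (tt (Equiv.Perm.SameCycle.setoid π) a b)) + 1 = orb π :=
      card_tt_ne _ _ _ h
    omega

end Pool.Agent.Helper46.AF
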